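import Mathlib
import Pool.Agent.H79.GaDefs
import Pool.Agent.H79.GaPl
import Pool.Agent.H79.Car3
import Pool.Agent.H79.Car4

set_option autoImplicit false

namespace Pool.Agent.Results.MP_bc0af3_ag.NotPoly

open Pool.Agent.H79.Ga Pool.Agent.H79.Car

theorem co_inj (e : A ≃ₐ[ZMod 2] B) : Function.Injective co := by
  have ht : tA ≠ 0 := fun h => t_ne (congrArg Subtype.val h)
  have : Algebra.IsAlgebraic (Algebra.adjoin (ZMod 2) (Set.range ![tA, wA, nA])) A := by
    refine ⟨fun a => ?_⟩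
    obtain ⟨m, q, hq⟩ := loc a
    have h1 : tA ^ m ∈ Algebra.adjoin (ZMod 2) (Set.range ![tA, wA, nA]) :=
      pow_mem (Algebra.subset_adjoin (Set.mem_range_self (f := ![tA, wA, nA]) 0)) m
    have h2 : co q ∈ Algebra.adjoin (ZMod 2) (Set.range ![tA, wA, nA]) := by
      rw [Algebra.adjoin_range_eq_range_aeval]; exact ⟨q, rfl⟩
    refine IsAlgebraic.of_smul (y := (⟨_, h1⟩ : Algebra.adjoin _ _))
      (mem_nonZeroDivisors_of_ne_zero fun h => pow_ne_zero m ht (congrArg Subtype.val h)) ?_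
    change IsAlgebraic _ (tA ^ m * a)
    rw [hq]
    exact isAlgebraic_algebraMap (⟨_, h2⟩ : Algebra.adjoin _ _)
  exact (Algebra.IsAlgebraic.isTranscendenceBasis_of_le_trdeg_of_finite (ZMod 2) ![tA, wA, nA]
    (by rw [e.trdeg_eq, MvPolynomial.trdeg_of_isDomain]; simp)).1

theorem chain {S : Type} [CommRing S] (σ : B →+* S) (D : S → S)
    (h1 : ∀ a b, D (a + b) = D a + D b) (h2 : ∀ a b, D (a * b) = a * D b + b * D a) (q : B) :
    D (σ q) = ∑ i, σ (MvPolynomial.pderiv i q) * D (σ (.X i)) := by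
  induction q using MvPolynomial.induction_on with
  | C c =>
    have : c = 0 ∨ c = 1 := by revert c; decide
    have h0 := h1 0 0
    have h3 := h2 1 1
    rcases this with rfl | rfl <;> simp_all
  | add p q hp hq => simp only [map_add, h1, hp, hq, add_mul, Finset.sum_add_distrib]
  | mul_X p j hp =>
    rw [map_mul, h2, hp]
    simp only [Derivation.leibniz, smul_eq_mul, map_add, map_mul, add_mul, Finset.sum_add_distrib,
      Finset.mul_sum, mul_assoc]
    congr 1
    rw [Finset.sum_eq_single j]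
    · simp
    · intro b _ hb
      simp [MvPolynomial.pderiv_X_of_ne hb.symm]
    · simp

theorem closure_iff {K : Type} [Field K] (φ : B →+* K) (f : K) :
    f ∈ Subring.closure (Set.range fun j => φ (.X j)) ↔ ∃ q, φ q = f := by
  constructor
  · exact fun h => (Subring.closure_le (t := φ.range)).2 (by rintro _ ⟨j, rfl⟩; exact ⟨_, rfl⟩) h
  · rintro ⟨q, rfl⟩
    induction q using MvPolynomial.induction_on with
    | C c =>
      have : c = 0 ∨ c = 1 := by revert c; decide
      rcases this with rfl | rfl <;> simp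
    | add p q hp hq => rw [map_add]; exact add_mem hp hq
    | mul_X p j hp => rw [map_mul]; exact mul_mem hp (Subring.subset_closure ⟨j, rfl⟩)

theorem not_poly' (e : A ≃ₐ[ZMod 2] B) {K : Type} [Field K] (φ : B →+* K)
    (hφ : Function.Injective φ) (hs : ∀ z : K, ∃ a b, z = φ a / φ b) : False := by
  let j : A →+* K := φ.comp (e : A →+* B)
  have hj : Function.Injective j := hφ.comp e.injective
  have ht : j tA ≠ 0 := (map_ne_zero_iff j hj).2 fun h => t_ne (congrArg Subtype.val h)
  let φ' : B →+* K := j.comp (co : B →+* A)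
  have h0 : φ' (.X 0) = j tA := congrArg j (MvPolynomial.aeval_X ![tA, wA, nA] 0)
  have hl : ∀ a, ∃ (m : ℕ) (q : B), φ a = φ' q * (j tA)⁻¹ ^ m := by
    intro a
    obtain ⟨m, q, hq⟩ := loc (e.symm a)
    refine ⟨m, q, ?_⟩
    have := congrArg j hq
    rw [map_mul, map_pow] at this
    change _ = φ' q at this
    rw [← this, show j (e.symm a) = φ a by simp [j], inv_pow]
    field_simp
  obtain ⟨C, hC⟩ := exists_chart φ hφ hs
  obtain ⟨C', hC'⟩ := exists_chart φ' (hj.comp (co_inj e)) fun z => by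
    obtain ⟨a, b, rfl⟩ := hs z
    obtain ⟨m, q, h1⟩ := hl a
    obtain ⟨m', q', h2⟩ := hl b
    refine ⟨q * .X 0 ^ m', q' * .X 0 ^ m, ?_⟩
    rw [h1, h2, map_mul, map_mul, map_pow, map_pow, h0, inv_pow, inv_pow]
    by_cases h3 : φ' q' = 0
    · simp [h3]
    field_simp
  have hCx : C.x = fun j => φ (.X j) := funext hC
  have hCx' : C'.x = fun j => φ' (.X j) := funext hC'
  have hinv : C'.Sup {1, 2} ∅ (j tA)⁻¹ := by
    refine Chart.Sup.single (g := -ex 0) (by rw [map_inv₀, ← h0, ← hC', C'.hx]; simp) ?_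
    rintro _ (rfl | rfl) <;> rw [ofLex_neg, Pi.neg_apply, ex_apply] <;> simp
  have hsup : ∀ f ∈ Subring.closure (Set.range C.x), C'.Sup {1, 2} ∅ f := by
    intro f hf
    rw [hCx, closure_iff] at hf
    obtain ⟨a, rfl⟩ := hf
    obtain ⟨m, q, h⟩ := hl a
    rw [h]
    refine (Chart.Sup.poly (by rw [hCx', closure_iff]; exact ⟨q, rfl⟩)).mul (J' := ∅) ?_ (by simp)
    clear h
    induction m with
    | zero => simpa using Chart.Sup.one
    | succ m ih => rw [pow_succ]; exact ih.mul hinv (by simp)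
  have hm : ∀ a, j a ∈ Subring.closure (Set.range C.x) := fun a => by
    rw [hCx, closure_iff]; exact ⟨e a, rfl⟩
  have h2 := C.two
  set ρ := hA * xA + tA ^ 3 * (uA + cA + tA ^ 2) ^ 2 * cA
  have hr : j uA * (1 + j uA ^ 3 * j cA) = j xA ^ 2 + j tA * j ρ := by
    simpa only [map_mul, map_add, map_pow, map_one, ρ] using congrArg j relA
  have hG := add_mem (gam1 (j tA)⁻¹ (j tA) (1 + j uA ^ 3 * j cA))
    (gam1 (j uA ^ 2 * j cA * (j tA)⁻¹) (j tA) (j uA))
  rw [Prod.mk_add_mk] at hG
  have hs' : ∀ D : Der K, D (1 + j uA ^ 3 * j cA) =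
      j uA ^ 2 * j cA * D (j uA) + j uA ^ 3 * D (j cA) := fun D => by
    rw [map_add, D.leibniz, D.leibniz_pow]
    simp only [smul_eq_mul, nsmul_eq_mul, Derivation.map_one_eq_zero]
    linear_combination (j cA * j uA ^ 2 * D (j uA)) * h2
  have hρ : ∀ D : Der K, j tA * D (j ρ) = j uA * D (1 + j uA ^ 3 * j cA) +
      (1 + j uA ^ 3 * j cA) * D (j uA) - j ρ * D (j tA) := fun D => by
    have := congrArg D hr
    rw [D.leibniz, map_add D (j xA ^ 2), C.D_sq, D.leibniz] at this
    simp only [smul_eq_mul] at this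
    linear_combination -this
  have e1 : w (j tA)⁻¹ (j tA) (1 + j uA ^ 3 * j cA) + w (j uA ^ 2 * j cA * (j tA)⁻¹) (j tA) (j uA) =
      w (j uA ^ 3 * (j tA)⁻¹) (j tA) (j cA) := by
    funext D1 D2
    simp only [Pi.add_apply, w, hs']
    linear_combination ((j tA)⁻¹ * j uA ^ 2 * j cA *
      (D1 (j tA) * D2 (j uA) - D2 (j tA) * D1 (j uA))) * h2
  rw [e1] at hG
  have key := main C C' hG (by
    convert w_mem (hm (uA ^ 2 * cA)) (hm tA) (hm ρ) using 1
    funext D1 D2
    apply mul_left_cancel₀ ht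
    have a1 := hρ D1
    have a2 := hρ D2
    simp only [Pi.add_apply, Pi.sub_apply, w, map_mul, map_pow, hs'] at a1 a2 ⊢
    field_simp
    linear_combination (j uA ^ 2 * j cA * D2 (j tA)) * a1 - (j uA ^ 2 * j cA * D1 (j tA)) * a2) hsup
    (w_mem (Chart.Sup.mul (J := ∅) (J' := ∅) (by rw [← map_pow]; exact hsup _ (hm _)) hinv (by simp))
      (hsup _ (hm _)) (hsup _ (hm _)))
  have hE : ∀ i q, C.E i (φ q) = C.x i * φ (MvPolynomial.pderiv i q) := fun i q => by
    rw [chain φ (C.E i) (map_add _) (fun a b => (C.E i).leibniz a b)]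
    simp only [← hC, C.E_x]
    simp [mul_comm]
  let σ : B →+* B := ((invRing phi).val : A →+* B).comp (e.symm : B →+* A)
  have hσ : ∀ a, σ (e a) = a.1 := fun a => by simp [σ]
  have k2 : ∀ i i', i < i' → t ∣ (v + t * r) ^ 3 *
      (σ (MvPolynomial.pderiv i (e tA)) * σ (MvPolynomial.pderiv i' (e cA)) -
        σ (MvPolynomial.pderiv i' (e tA)) * σ (MvPolynomial.pderiv i (e cA))) := by
    intro i i' hi
    obtain ⟨p, hp, h⟩ := key i i' hi
    rw [hCx, closure_iff] at hp
    obtain ⟨p, rfl⟩ := hp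
    have h3 : e uA ^ 3 * (MvPolynomial.pderiv i (e tA) * MvPolynomial.pderiv i' (e cA) -
        MvPolynomial.pderiv i' (e tA) * MvPolynomial.pderiv i (e cA)) = e tA * p := by
      apply hφ
      have b1 := C.x_ne i
      have b2 := C.x_ne i'
      have b3 : ∀ a, j a = φ (e a) := fun _ => rfl
      simp only [w, b3, hE] at h
      rw [b3] at ht
      simp only [map_mul, map_sub, map_pow]
      field_simp at h
      linear_combination h
    have := congrArg σ h3
    simp only [map_mul, map_sub, map_pow, hσ] at this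
    exact ⟨σ p, this⟩
  choose d hd using fun i => D_dvd (e.symm (.X i))
  have c1 := chain σ (MvPolynomial.pderiv 0) (map_add _) (fun a b => Derivation.leibniz _ a b) (e tA)
  have c2 := chain σ D (map_add _) (fun a b => Derivation.leibniz _ a b) (e tA)
  have c3 := chain σ D (map_add _) (fun a b => Derivation.leibniz _ a b) (e cA)
  have hd' : ∀ i, D (σ (.X i)) = t * d i := hd
  simp only [hσ, Fin.sum_univ_three, hd'] at c1 c2 c3
  have v1 : MvPolynomial.pderiv 0 tA.1 = 1 := MvPolynomial.pderiv_X_self 0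
  have v2 : D tA.1 = 0 := D_t
  have v3 : D cA.1 = t * D r := by
    change D (r ^ 2 + t * r) = _
    rw [map_add, D.leibniz_pow, D.leibniz, D_t]
    simp only [smul_eq_mul, nsmul_eq_mul]
    linear_combination (r * D r) * two
  obtain ⟨p1, k01⟩ := k2 0 1 (by decide)
  obtain ⟨p2, k02⟩ := k2 0 2 (by decide)
  obtain ⟨p3, k12⟩ := k2 1 2 (by decide)
  rw [v1] at c1
  rw [v2] at c2
  rw [v3] at c3
  generalize MvPolynomial.pderiv 0 (σ (.X 0)) = α0 at *
  generalize MvPolynomial.pderiv 0 (σ (.X 1)) = α1 at *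
  generalize MvPolynomial.pderiv 0 (σ (.X 2)) = α2 at *
  generalize σ (MvPolynomial.pderiv 0 (e tA)) = T0 at *
  generalize σ (MvPolynomial.pderiv 1 (e tA)) = T1 at *
  generalize σ (MvPolynomial.pderiv 2 (e tA)) = T2 at *
  generalize σ (MvPolynomial.pderiv 0 (e cA)) = S0 at *
  generalize σ (MvPolynomial.pderiv 1 (e cA)) = S1 at *
  generalize σ (MvPolynomial.pderiv 2 (e cA)) = S2 at *
  have fin : (v + t * r) ^ 3 * D r = t * ((α0 * d 1 - α1 * d 0) * p1 + (α0 * d 2 - α2 * d 0) * p2 +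
      (α1 * d 2 - α2 * d 1) * p3) := by
    apply mul_left_cancel₀ t_ne
    linear_combination (t * (α0 * d 1 - α1 * d 0)) * k01 + (t * (α0 * d 2 - α2 * d 0)) * k02 +
      (t * (α1 * d 2 - α2 * d 1)) * k12 + (v + t * r) ^ 3 * (t * D r * c1 +
        (T0 * α0 + T1 * α1 + T2 * α2) * c3 - (S0 * α0 + S1 * α1 + S2 * α2) * c2)
  have hr2 : D r = 1 + x * D h := by
    rw [r, map_add, D.leibniz, D_x, D_y]
    simp only [smul_eq_mul]
    linear_combination h ^ 2 * two
  have hv : D v = t * (1 + h ^ 2) := by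
    rw [v, map_add, D.leibniz, D.leibniz_pow, D_t, D_y]
    simp only [smul_eq_mul, nsmul_eq_mul]
    linear_combination (x * D x) * two
  have hh : D h = t ^ 2 * D v := by
    rw [h, map_add, map_add, D.leibniz, D.leibniz_pow, D.leibniz_pow, D.leibniz_pow, D_t]
    simp only [smul_eq_mul, nsmul_eq_mul]
    linear_combination (v * D v) * two
  rw [hr2, hh] at fin
  have := congrArg (MvPolynomial.eval ![0, 1, 0]) fin
  simp [v, t, x, y] at this

theorem not_poly (e : A ≃ₐ[ZMod 2] B) : False :=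
  not_poly' e (algebraMap B (FractionRing B)) (IsFractionRing.injective B _) fun z => by
    obtain ⟨a, b, -, h⟩ := IsFractionRing.div_surjective B z
    exact ⟨a, b, h.symm⟩

/-- An exponential automorphism with principal plinth ideal whose invariant ring is not a
polynomial ring. -/
theorem result : ∃ φ : MvPolynomial (Fin 3) (ZMod 2) ≃ₐ[ZMod 2] MvPolynomial (Fin 3) (ZMod 2),
    IsExponential φ ∧ (plinth φ).IsPrincipal ∧
      ¬ Nonempty (invRing φ ≃ₐ[ZMod 2] MvPolynomial (Fin 3) (ZMod 2)) :=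
  ⟨phi, phi_exp, principal, fun ⟨e⟩ => not_poly e⟩

end Pool.Agent.Results.MP_bc0af3_ag.NotPoly
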